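import Pool.Agent.Helper98.WF.Main

namespace Pool.Agent.Results.MP_bae8ce_ag.FiniteFields

open PL Pool.Agent.Helper98.WF

/-- **Polylogarithmic complexes over finite fields.**  Let `F` be an algebraic extension of `𝔽_p`
(for instance a finite field) and `X` a set of closed points of `P^1_F`, for instance the set of
all closed points of an open subscheme; the residue fields `RF x` of the points are arbitrary
finite extensions of `F`.  Then

* the differentials of the complexes `Γ(F(t), n) ⊗ ℚ` and `Γ(F_x, n) ⊗ ℚ` exist (linear maps given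
  on the generators by the formulas of `IsDif`);
* if `d` and `d' x` are these differentials then, whatever linear maps `r` are taken as residue
  maps, `H^i(Γ(X, n) ⊗ ℚ) = 0` for all `n ≥ 2` and `i ∈ {1, n - 1, n, n + 1}` (`Ends`).  In
  particular the complexes `Γ(X, 2) ⊗ ℚ` and `Γ(X, 3) ⊗ ℚ` are acyclic.

The term of `Γ(X, n) ⊗ ℚ` in degree `i = j + 1` is `ΓX X k j` with `k + j = n`. -/
theorem result (p : ℕ) [Fact p.Prime] (F : Type) [Field F] [Algebra (ZMod p) F]
    [Algebra.IsAlgebraic (ZMod p) F] (X : Set (CP F)) :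
    (∃ d, IsDif (RatFunc F) d) ∧ (∀ x : CP F, ∃ d', IsDif (RF x) d') ∧
      ∀ d, ∀ d' : ∀ x : CP F, Dif (RF x), IsDif (RatFunc F) d → (∀ x, IsDif (RF x) (d' x)) →
        ∀ r : Res X, Ends d d' r :=
  main p F X

end Pool.Agent.Results.MP_bae8ce_ag.FiniteFields
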