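import Pool.Agent.Helper91.PL.X4

namespace Pool.Agent.Results.MP_bae8ce_ag.PolylogComplexes

open PL

/-- **The polylogarithmic complexes of all open subsets of the projective line over an algebraic
closure of `𝔽_p` are acyclic in all weights `n ≥ 2`.**  Let `F` be an algebraic closure of `𝔽_p`
and `X` a set of points of `P^1_F`, for instance the set of all closed points of an open
subscheme.  Then

* the differentials of the complexes `Γ(F(t), n) ⊗ ℚ` and `Γ(F, n) ⊗ ℚ` exist (linear maps given
  on the generators `{x}_k ⊗ λ` by the formulas of `IsDif`);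
* if `d` and `d'` are these differentials then for every `n ≥ 2` the complex `Γ(X, n) ⊗ ℚ` is
  acyclic, whatever linear maps `r` are taken as residue maps.  Its term in degree `i = j + 1` is
  `ΓX F X k j` with `k + j = n`, and `dΓX d d' r k j` is the differential
  `ΓX F X (k + 1) j → ΓX F X k (j + 1)`. -/
theorem result (p : ℕ) [Fact p.Prime] (F : Type) [Field F] [Algebra (ZMod p) F]
    [IsAlgClosure (ZMod p) F] (X : Set (P1 F)) :
    (∃ d, IsDif (RatFunc F) d) ∧ (∃ d', IsDif F d') ∧
      ∀ d d', IsDif (RatFunc F) d → IsDif F d' → ∀ r : Res F X, Acyclic d d' r := by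
  have : CharP F p := charP_of_injective_algebraMap (algebraMap (ZMod p) F).injective p
  have : IsAlgClosed F := IsAlgClosure.isAlgClosed (ZMod p)
  exact x4_main p (fun x => x4_pow p F x) X

end Pool.Agent.Results.MP_bae8ce_ag.PolylogComplexes
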