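import Pool.Agent.Helper19.HV.Main

namespace Pool.Agent.Results.MP_bae8ce_ag.WeightFour

open PL Pool.Agent.Helper19.HV

/-- **Homotopy invariance and localisation for the polylogarithmic complexes of weight four.**
Let `F` be an algebraically closed field (of any characteristic) and `X` a set of points of the
affine line over `F`, for instance the set of closed points of an open subscheme.  Then

* the differentials `d`, `d'` of the complexes `Γ(F(t), n) ⊗ ℚ`, `Γ(F, n) ⊗ ℚ`, the map `c`
  induced by `F ⊂ F(t)`, the maps `m a : y ↦ y ∧ (t - a)` and the residues `r` at the points of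
  `X` exist (linear maps given by the usual formulas on the generators);
* for all such maps `Γ(X, n) ⊗ ℚ` is a complex and `(z, y) ↦ z + ∑_a y_a ∧ (t - a)` a morphism of
  complexes `Γ(F, n) ⊕ ⨁_{a ∉ X} Γ(F, n - 1)[-1] → Γ(X, n)` (tensored with `ℚ`), which for `n = 4`
  induces isomorphisms on all cohomology groups (`QIs`).

In particular `Γ(F, 4) ⊗ ℚ → Γ(𝔸¹, 4) ⊗ ℚ` and
`(Γ(F, 4) ⊕ ⨁_{a ∈ F} Γ(F, 3)[-1]) ⊗ ℚ → Γ(F(t), 4) ⊗ ℚ` are quasi-isomorphisms. -/
theorem result (F : Type) [Field F] [IsAlgClosed F] (X : Set (P1 F)) (hX : none ∉ X) :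
    (∃! d, IsDif (RatFunc F) d) ∧ (∃! d', IsDif F d') ∧ (∃ c, IsCst (F := F) c) ∧
      (∃ m, IsMul (F := F) m) ∧ (∃ r : Res F X, IsRes r) ∧
      ∀ d d' c m, ∀ r : Res F X, IsDif (RatFunc F) d → IsDif F d' → IsCst c → IsMul m → IsRes r →
        QIs d d' r c m :=
  main F X hX

end Pool.Agent.Results.MP_bae8ce_ag.WeightFour
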